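import Pool.Agent.N272.Mey.Graph

set_option autoImplicit false
open N6ef48c04

namespace Pool.Agent.Results.MP_964892_co.BoundedDiameter

/-- Let `G` be a connected graph on `n` vertices in which any two vertices have distance at most
`D`, where `D ≥ 1`. Then `c(G) ≤ 2500 D √(n (log n + 1))`. So for graphs of bounded diameter Meyniel's
conjecture holds up to a factor of order `√(log n)`. -/
theorem result {V : Type*} [Fintype V] (G : SimpleGraph V) (hG : G.Connected) (D : ℕ)
    (hD1 : 1 ≤ D) (hD : ∀ u v, G.dist u v ≤ D) :
    (copNumber G : ℝ) ≤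
      2500 * D * Real.sqrt (Fintype.card V * (Real.log (Fintype.card V) + 1)) :=
  Pool.Agent.N272.Mey.graph_bound G hG D hD1 hD

end Pool.Agent.Results.MP_964892_co.BoundedDiameter
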