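import Pool.Agent.N330.RB.Comps

set_option autoImplicit false

open scoped Classical

open N6ef48c04

namespace Pool.Agent.Results.MP_964892_co.ExceptionalSets

open Pool.Agent.Y649.EX

/-!
# Meyniel's bound for expanders with a set of exceptional vertices

`nb G S` is the closed neighbourhood of the set `S` of vertices, so `(nb G)^[j] S` is the ball of
radius `j` around `S`, and `(fun S => nb G S \ C)^[t] {v}` consists of the places which the robber
can reach from `v` in `t` moves without entering `C`.

The starting files prove Meyniel's bound for graphs with large balls of radius two, for near-optimal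
expanders and for pseudorandom graphs. There the expansion has to hold for all sets of vertices: one
bad vertex is enough to destroy the hypotheses. Here nothing is required for a set `C` of
exceptional vertices; Meyniel's bound remains true as long as `|C| ≤ n / (log n + 1) ^ 2`. So it
holds for all connected graphs which arise from a pseudorandom graph of polynomial degree when all
the edges at such a set `C` are changed in an arbitrary way.

Proof idea. The cops of the group which hunts the robber outside `C` stand at random places (two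
teams, or guards and one team); only the places where the robber can go without entering `C` have
to be matched, so only the expansion of sets outside `C` matters. In order to use such a group in
the game of `PathTransversals`, the cops must be able to start from one common vertex of the
component of `G - C` where the robber is; they only use those random places which are not far away,
and these suffice. The distances in a component of `G - C` are bounded because disjoint balls have
at least a constant proportion of all vertices. In (3), `G - C` itself need not expand: vertices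
can have all their neighbours in `C`. A maximal set `Z` outside `C` with at most `n / d` vertices
and few neighbours outside `C ∪ Z` satisfies `|Z| ≤ |C|`, and `G - (C ∪ Z)` is a near-optimal
expander. In (5), the components are treated one by one; only one group of cops is needed for all
the components, because it can start anywhere.
-/

theorem walk_of_con {V : Type*} (G : SimpleGraph V) (C : Finset V) {a b : V} (ha : a ∉ C)
    (h : Pool.Agent.N330.VT.Con G C a b) : ∃ w : G.Walk a b, ∀ x ∈ w.support, x ∉ C := by
  induction h with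
  | refl =>
    refine ⟨SimpleGraph.Walk.nil, fun x hx => ?_⟩
    rw [SimpleGraph.Walk.support_nil, List.mem_singleton] at hx
    rw [hx]
    exact ha
  | tail _ hbc ih =>
    obtain ⟨w, hw⟩ := ih
    refine ⟨w.concat hbc.1, fun x hx => ?_⟩
    rw [SimpleGraph.Walk.support_concat, List.mem_append, List.mem_singleton] at hx
    rcases hx with hx | hx
    · exact hw x hx
    · rw [hx]
      exact hbc.2

/-- Let `G` be a connected graph on `n` vertices and `C` a set of vertices.
(1) If every vertex outside `C` has at least `c n` vertices within distance `2` (`c > 0`), then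
`c(G) ≤ (16 / c + 3) √n + 195 √((5 / c + 5) |C|) (log n + 1)`, which is
`≤ (16 / c + 3 + 195 √(5 / c + 5)) √n` if `|C| (log n + 1) ^ 2 ≤ n`.
(2) The critical radius. Let `b, D ≥ log n`, `b ≤ √n ≤ b D` and `c > 0`. Assume that from each
vertex outside `C` the robber can reach at most `b` places in `t` moves without entering `C`, that
each vertex outside `C` has at most `D` vertices in its closed neighbourhood outside `C`, and that
for each set `S` of vertices outside `C` the balls of radius `t + 1` and `t + 2` around `S` have at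
least `c min (b D |S|, n)` and `c min (b D ^ 2 |S|, n)` vertices. Assume that vertices which are
joined by a walk outside `C` have distance at most `L` in `G`. Then
`c(G) ≤ (32 / c + 2) √n + 195 √((L + 2 t + 5) |C|) (log n + 1)`, which is `≤ (32 / c + 197) √n` if
`(L + 2 t + 5) |C| (log n + 1) ^ 2 ≤ n`.
(3) For all `ε > 0` and `0 < c ≤ 1` there is a `K` such that the following holds. Assume that for
some `d ≥ n ^ ε` each vertex outside `C` has at most `d / c` vertices in its closed neighbourhood
outside `C`, and that `|N[S] ∪ C| ≥ c min (d |S|, n)` for each set `S` of vertices outside `C`.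
If `8 |C| ≤ c n`, then `c(G) ≤ K (√n + √|C| (log n + 1))`; if `|C| (log n + 1) ^ 2 ≤ n`, then
`c(G) ≤ K √n`.
(4) For all `ε > 0` and `A` there is a `K` such that `c(G) ≤ K √n` if `|C| (log n + 1) ^ 2 ≤ n` and
outside `C` the graph `G` has the same edges as a pseudorandom graph `G₀`: `G₀` is `d`-regular
with `d ≥ n ^ ε`, and the adjacency matrix `M` of `G₀` satisfies `|M x|² ≤ A d |x|²` for all
vectors `x` with sum `0` (case `U = V`); or `G₀` is bipartite with a side `U`, and this holds
for the vectors `x` whose sums over both sides are `0`.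
(5) Expanders of different sizes. For all `ε > 0` and `0 < c ≤ 1` there is a `K` such that the
following holds. Assume that every component `H` of `G - C`, with `h` vertices, has `h ≤ b'` and
diameter at most `D`, or has `h ≤ b` and is a near-optimal expander: for some `d ≥ h ^ ε` its
closed neighbourhoods have at most `d / c` vertices and `|N[S]| ≥ c min (d |S|, h)` for every set
`S` of vertices of `H`. Then `c(G) ≤ K √b + K √((log (log b' + 1) + 1) (D + 1) |C|) (log n + 1) +
433 √b' (log b' + 1)`, and `c(G) ≤ K √n` if `(log (log b' + 1) + 1) (D + 1) |C| (log n + 1) ^ 2 ≤ n`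
and `b' (log n + 1) ^ 2 ≤ n`. (If all the components are expanders, take `b' = D = 0`; the first
condition is then `|C| (log n + 1) ^ 2 ≤ n`, because `log 0 = 0` here.) -/
theorem result :
    (∀ (V : Type) [Fintype V] (G : SimpleGraph V) (C : Finset V) (c : ℝ),
      G.Connected → 0 < c →
      (∀ v, v ∉ C → c * Fintype.card V ≤ ((nb G)^[2] {v}).card) →
      (copNumber G : ℝ) ≤ (16 / c + 3) * √(Fintype.card V : ℝ) +
        195 * √((5 / c + 5) * C.card) * (Real.log (Fintype.card V) + 1) ∧
      (C.card * (Real.log (Fintype.card V) + 1) ^ 2 ≤ Fintype.card V →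
        (copNumber G : ℝ) ≤ (16 / c + 3 + 195 * √(5 / c + 5)) * √(Fintype.card V : ℝ))) ∧
    (∀ (V : Type) [Fintype V] (G : SimpleGraph V) (C : Finset V) (c b D : ℝ) (t L : ℕ),
      G.Connected → 0 < c →
      Real.log (Fintype.card V) ≤ b → Real.log (Fintype.card V) ≤ D →
      b ≤ √(Fintype.card V : ℝ) → √(Fintype.card V : ℝ) ≤ b * D →
      (∀ v, v ∉ C → (((fun S => nb G S \ C)^[t] {v}).card : ℝ) ≤ b) →
      (∀ v, v ∉ C → ((nb G {v} \ C).card : ℝ) ≤ D) →
      (∀ S : Finset V, (∀ v ∈ S, v ∉ C) →
        c * min (b * D * S.card) (Fintype.card V) ≤ ((nb G)^[t + 1] S).card) →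
      (∀ S : Finset V, (∀ v ∈ S, v ∉ C) →
        c * min (b * D ^ 2 * S.card) (Fintype.card V) ≤ ((nb G)^[t + 2] S).card) →
      (∀ (u v : V) (w : G.Walk u v), (∀ x ∈ w.support, x ∉ C) → G.dist u v ≤ L) →
      (copNumber G : ℝ) ≤ (32 / c + 2) * √(Fintype.card V : ℝ) +
        195 * √((L + 2 * t + 5) * C.card) * (Real.log (Fintype.card V) + 1) ∧
      ((L + 2 * t + 5) * C.card * (Real.log (Fintype.card V) + 1) ^ 2 ≤ Fintype.card V →
        (copNumber G : ℝ) ≤ (32 / c + 197) * √(Fintype.card V : ℝ))) ∧
    (∀ ε c : ℝ, 0 < ε → 0 < c → c ≤ 1 → ∃ K : ℝ,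
      ∀ (V : Type) [Fintype V] (G : SimpleGraph V) (C : Finset V) (d : ℝ),
      G.Connected → (Fintype.card V : ℝ) ^ ε ≤ d →
      (∀ v, v ∉ C → ((nb G {v} \ C).card : ℝ) ≤ d / c) →
      (∀ S : Finset V, (∀ v ∈ S, v ∉ C) →
        c * min (d * S.card) (Fintype.card V) ≤ (nb G S ∪ C).card) →
      (8 * (C.card : ℝ) ≤ c * Fintype.card V → (copNumber G : ℝ) ≤ K * (√(Fintype.card V : ℝ) +
        √(C.card : ℝ) * (Real.log (Fintype.card V) + 1))) ∧
      (C.card * (Real.log (Fintype.card V) + 1) ^ 2 ≤ Fintype.card V →
        (copNumber G : ℝ) ≤ K * √(Fintype.card V : ℝ))) ∧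
    (∀ ε A : ℝ, 0 < ε → ∃ K : ℝ,
      ∀ (V : Type) [Fintype V] (G₀ G : SimpleGraph V) (C U : Finset V) (d : ℕ),
      G.Connected → (∀ u v, u ∉ C → v ∉ C → (G.Adj u v ↔ G₀.Adj u v)) →
      (Fintype.card V : ℝ) ^ ε ≤ d → (∀ v, G₀.degree v = d) →
      (U = Finset.univ ∨ ∀ u v, G₀.Adj u v → (u ∈ U ↔ v ∉ U)) →
      (∀ x : V → ℝ, ∑ v ∈ U, x v = 0 → ∑ v ∈ Uᶜ, x v = 0 →
        ∑ v, (∑ w ∈ G₀.neighborFinset v, x w) ^ 2 ≤ A * d * ∑ v, x v ^ 2) →
      C.card * (Real.log (Fintype.card V) + 1) ^ 2 ≤ Fintype.card V →
      (copNumber G : ℝ) ≤ K * √(Fintype.card V : ℝ)) ∧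
    (∀ ε c : ℝ, 0 < ε → 0 < c → c ≤ 1 → ∃ K : ℝ,
      ∀ (V : Type) [Fintype V] (G : SimpleGraph V) (C : Finset V) (b : ℝ) (b' D : ℕ),
      G.Connected →
      (∀ H : (G.induce {v | v ∉ C}).ConnectedComponent,
        (Fintype.card H ≤ b' ∧ ∀ x y : H, H.toSimpleGraph.dist x y ≤ D) ∨
        ((Fintype.card H : ℝ) ≤ b ∧ ∃ d : ℝ, (Fintype.card H : ℝ) ^ ε ≤ d ∧
          (∀ v : H, ((nb H.toSimpleGraph {v}).card : ℝ) ≤ d / c) ∧
          ∀ S : Finset H, c * min (d * S.card) (Fintype.card H) ≤
            (nb H.toSimpleGraph S).card)) →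
      (copNumber G : ℝ) ≤ K * √b + K * √((Real.log (Real.log b' + 1) + 1) * (D + 1) * C.card) *
        (Real.log (Fintype.card V) + 1) + 433 * √(b' : ℝ) * (Real.log b' + 1) ∧
      ((Real.log (Real.log b' + 1) + 1) * (D + 1) * C.card *
          (Real.log (Fintype.card V) + 1) ^ 2 ≤ Fintype.card V →
        b' * (Real.log (Fintype.card V) + 1) ^ 2 ≤ Fintype.card V →
        (copNumber G : ℝ) ≤ K * √(Fintype.card V : ℝ))) := by
  -- graphs with one vertex
  have small : ∀ (V : Type) [Fintype V] (G : SimpleGraph V), Fintype.card V < 2 →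
      (copNumber G : ℝ) ≤ √(Fintype.card V : ℝ) := by
    intro V _ G hn
    have h1 := Pool.Agent.N330.RB.cop_small V G 1 (by
      have : Fintype.card V ≤ 1 := by omega
      exact_mod_cast this)
    rwa [Real.sqrt_one, one_mul] at h1
  refine ⟨?_, ?_, ?_, ?_, ?_⟩
  · intro V _ G C c hG hc hball
    have hne : Nonempty V := hG.nonempty
    have hn1 : (1 : ℝ) ≤ Fintype.card V := by exact_mod_cast Fintype.card_pos
    have hl0 := Real.log_nonneg hn1
    have hs0 : 0 ≤ √(Fintype.card V : ℝ) := Real.sqrt_nonneg _
    have h16 : 0 ≤ 16 / c := by positivity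
    have h1 : (copNumber G : ℝ) ≤ (16 / c + 3) * √(Fintype.card V : ℝ) +
        195 * √((5 / c + 5) * C.card) * (Real.log (Fintype.card V) + 1) := by
      rcases lt_or_ge (Fintype.card V) 2 with hn | hn
      · have e1 := small V G hn
        have e2 : 0 ≤ 195 * √((5 / c + 5) * C.card) * (Real.log (Fintype.card V) + 1) := by
          positivity
        nlinarith
      · have e1 := Pool.Agent.N330.RB.dense_bound V G hG C c hc hn hball
        linarith
    refine ⟨h1, fun hC => ?_⟩
    have h2 := Pool.Agent.N330.RB.sqrt_mul_le_sqrt (C.card : ℝ) _ _ (Nat.cast_nonneg _) hC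
    have h3 : √((5 / c + 5) * (C.card : ℝ)) = √(5 / c + 5) * √(C.card : ℝ) :=
      Real.sqrt_mul (by positivity) _
    rw [h3] at h1
    have h4 : 0 ≤ 195 * √(5 / c + 5) := by positivity
    have h5 := mul_le_mul_of_nonneg_left h2 h4
    calc (copNumber G : ℝ) ≤ (16 / c + 3) * √(Fintype.card V : ℝ) +
        195 * (√(5 / c + 5) * √(C.card : ℝ)) * (Real.log (Fintype.card V) + 1) := h1
      _ = (16 / c + 3) * √(Fintype.card V : ℝ) +
        195 * √(5 / c + 5) * (√(C.card : ℝ) * (Real.log (Fintype.card V) + 1)) := by ring
      _ ≤ (16 / c + 3) * √(Fintype.card V : ℝ) +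
        195 * √(5 / c + 5) * √(Fintype.card V : ℝ) := by linarith
      _ = _ := by ring
  · intro V _ G C c b D t L hG hc h1 h2 h3 h4 h5 h6 h7 h8 hL
    have hne : Nonempty V := hG.nonempty
    have hn1 : (1 : ℝ) ≤ Fintype.card V := by exact_mod_cast Fintype.card_pos
    have hl0 := Real.log_nonneg hn1
    have hs0 : 0 ≤ √(Fintype.card V : ℝ) := Real.sqrt_nonneg _
    have h32 : 0 ≤ 32 / c := by positivity
    have hb : (copNumber G : ℝ) ≤ (32 / c + 2) * √(Fintype.card V : ℝ) +
        195 * √((L + 2 * t + 5) * C.card) * (Real.log (Fintype.card V) + 1) := by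
      rcases lt_or_ge (Fintype.card V) 2 with hn | hn
      · have e1 := small V G hn
        have e2 : 0 ≤ 195 * √((L + 2 * t + 5) * C.card) *
            (Real.log (Fintype.card V) + 1) := by positivity
        nlinarith
      · have e1 := Pool.Agent.N330.RB.crit_bound V G hG C c b D t L hc hn h1 h3 h4 h2 h5 h6 h7
          (fun S hS => by
            have e := h8 S hS
            rwa [pow_two, ← mul_assoc] at e)
          (fun a v ha hav _ => by
            obtain ⟨w, hw⟩ := walk_of_con G C ha hav
            exact hL a v w hw)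
        linarith
    refine ⟨hb, fun hC => ?_⟩
    have e2 := Pool.Agent.N330.RB.sqrt_mul_le_sqrt ((L + 2 * t + 5) * (C.card : ℝ)) _ _
      (by positivity) hC
    calc (copNumber G : ℝ) ≤ (32 / c + 2) * √(Fintype.card V : ℝ) +
        195 * √((L + 2 * t + 5) * C.card) * (Real.log (Fintype.card V) + 1) := hb
      _ = (32 / c + 2) * √(Fintype.card V : ℝ) +
        195 * (√((L + 2 * t + 5) * C.card) * (Real.log (Fintype.card V) + 1)) := by ring
      _ ≤ (32 / c + 2) * √(Fintype.card V : ℝ) + 195 * √(Fintype.card V : ℝ) := by linarith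
      _ = _ := by ring
  · intro ε c hε hc hc1
    obtain ⟨K, -, hK⟩ := Pool.Agent.N330.RB.expander_mey ε c hε hc hc1
    exact ⟨K, hK⟩
  · intro ε A hε
    exact Pool.Agent.N330.RB.pseudo_mey ε A hε
  · intro ε c hε hc hc1
    exact Pool.Agent.N330.RB.mix_mey ε c hε hc hc1

end Pool.Agent.Results.MP_964892_co.ExceptionalSets
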