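import Mathlib
import Pool.Agent.N333.MY.Fin
import Pool.Agent.N333.MY.Mey
import Pool.Agent.N333.MY.Team
import Pool.Agent.N333.MY.Game
import Pool.Agent.N333.MY.Num
import Pool.Agent.N333.MY.Numk
import Pool.Agent.N333.MY.Numn
import Pool.Agent.N333.MY.Nb
import Pool.Agent.N333.MY.WT
import Pool.Agent.N333.MY.Irr
import Pool.Agent.N333.MY.Up
import Pool.Agent.N333.MY.Step
import Pool.Agent.N333.MY.Det
import Pool.Agent.N333.MY.SPLIT
import Pool.Agent.N333.MY.Rec
import Pool.Agent.N333.MY.Exc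
import Pool.Agent.N333.MY.SPA
import Pool.Agent.N333.MY.UB
import Pool.Agent.N333.MY.Exp
import Pool.Agent.N333.RM.Fin

/-!
# Meyniel's bound for graphs with exact exponential growth, for near-Ramanujan graphs and for almost
# all lifts

For a connected `d`-regular graph on `n` vertices all of whose eigenvalues except `d`, `-d` are at
most `2 √(d - 1) (1 + C / log n)` in absolute value, the balls satisfy
`|N^r[S]| ≥ c min ((d - 1) ^ r |S|, n)`, without any loss: apply the Chebyshev polynomial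
`T_r(A / a)` of the adjacency matrix `A` to the indicator function of `S`, with a suitable `a`.

A multigraph on the vertex set `V` with edge set `E` is given by the two ends `s, t : E → V` of
its edges; loops and parallel edges are allowed (`deg s t v` is the degree, loops count twice;
`Con s t` is connectedness). Its `N`-fold lift given by the permutations `σ e` of `Fin N`, `e : E`,
is the multigraph on `V × Fin N` whose edges join `(s e, i)` and `(t e, σ e i)` for `e : E`,
`i : Fin N`. For one vertex with `d` loops the lifts are the `2 d`-regular (multi)graphs of the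
permutation model.

`gr a b` is the simple graph on the same vertices (loops are dropped, parallel edges identified;
this does not change the game), `(nb G)^[r] S` is the set of the vertices at distance at most `r`
from `S`.
-/

set_option autoImplicit false

open scoped Classical

open Finset N6ef48c04 Pool.Agent.Y649.EX Pool.Agent.N333.MY

namespace Pool.Agent.Results.MP_964892_co.MeynielLifts

/-- at most `K √n` cops win, and `k ≤ K √n` suitably placed cops catch the robber within
`K (log n + 1)` rounds -/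
def Meyniel {X : Type} [Fintype X] (G : SimpleGraph X) (K : ℝ) : Prop :=
  (copNumber G : ℝ) ≤ K * √(Fintype.card X : ℝ) ∧
    ∃ k T : ℕ, (k : ℝ) ≤ K * √(Fintype.card X : ℝ) ∧
      (T : ℝ) ≤ K * (Real.log (Fintype.card X) + 1) ∧
      ∃ c : Fin k → X, ∀ r : X, CopsCatchWithin G k T c r

/-- (1) Let `0 < c` and `ρ > 1`. There is `K` such that Meyniel's bound `c(G) ≤ K √n` holds (with
capture in `K (log n + 1)` rounds) for every graph on `n` vertices in which all balls of radius `r`
have at most `C ρ ^ r` vertices and `|N^r[S]| ≥ c min (ρ ^ r |S|, n)` for all `r` and all sets `S`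
of vertices.
(2) Let `d ≥ 3`. There is `K` such that Meyniel's bound (with capture in `K (log n + 1)` rounds)
holds for all connected `d`-regular graphs on `n` vertices whose eigenvalues `μ ≠ ± d` satisfy
`|μ| ≤ 2 √(d - 1) (1 + C / log n)`, for example for all Ramanujan graphs of degree `d`.
(3) Let `s, t : E → V` be a finite connected multigraph with all degrees at least `3`. There is a
number `K` such that for every `η > 0` and all large `N`, all but at most `η (N!) ^ |E|` of the
`(N!) ^ |E|` lifts of degree `N` satisfy Meyniel's bound: `c ≤ K √n`, `n = |V| N`, with capture in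
`K (log n + 1)` rounds. -/
theorem result :
    (∀ c C ρ : ℝ, 0 < c → 1 < ρ → ∃ K : ℝ, ∀ (X : Type) [Fintype X] (G : SimpleGraph X),
      (∀ (r : ℕ) (v : X), (((nb G)^[r] {v}).card : ℝ) ≤ C * ρ ^ r) →
      (∀ (r : ℕ) (S : Finset X),
        c * min (ρ ^ r * S.card) (Fintype.card X) ≤ (((nb G)^[r] S).card : ℝ)) →
      Meyniel G K) ∧
    (∀ (d : ℕ) (C : ℝ), 3 ≤ d → ∃ K : ℝ, ∀ (X : Type) [Fintype X] (G : SimpleGraph X),
      G.Connected → (∀ x, (univ.filter (G.Adj x)).card = d) →
      (∀ (μ : ℝ) (f : X → ℝ), f ≠ 0 → (∀ x, ∑ y ∈ univ.filter (G.Adj x), f y = μ * f x) →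
        |μ| = d ∨ |μ| ≤ 2 * √((d : ℝ) - 1) * (1 + C / Real.log (Fintype.card X))) →
      Meyniel G K) ∧
    ∀ (V E : Type) [Fintype V] [Fintype E] [Nonempty V] (s t : E → V), Con s t →
      (∀ v, 3 ≤ deg s t v) → ∃ K : ℝ, ∀ η : ℝ, 0 < η → ∃ N0 : ℕ, ∀ N : ℕ, N0 ≤ N →
        (Nat.card {σ : E → Equiv.Perm (Fin N) // ¬ Meyniel (gr (la s N) (lb t σ)) K} : ℝ) ≤
          η * Nat.card (E → Equiv.Perm (Fin N)) := by
  have hM : S_MEY := Pool.Agent.N333.MY.Mey.t_MEY Pool.Agent.N333.MY.Team.t_TEAM Pool.Agent.N333.MY.Game.t_GAME (Pool.Agent.N333.MY.t_NUM Pool.Agent.N333.MY.NUMK.t_NUMK Pool.Agent.N333.MY.Numn.t_NUMN)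
  have hE : S_EXP := Pool.Agent.N333.MY.Exp.t_EXP (Pool.Agent.N333.MY.WT.t_WT Pool.Agent.N333.MY.Irr.t_IRR) Pool.Agent.N333.MY.Nb.t_LIFTW Pool.Agent.N333.MY.Up.t_UP (Pool.Agent.N333.MY.Det.t_DET Pool.Agent.N333.MY.Step.t_STEP)
      (Pool.Agent.N333.MY.SPA.t_SPA Pool.Agent.N333.MY.SPLIT.t_SPLIT)
      (Pool.Agent.N333.MY.UB.t_UB (Pool.Agent.N333.MY.Exc.t_EXC (Pool.Agent.N333.MY.Rec.t_REC Pool.Agent.N333.MY.SPLIT.t_SPLIT)) Pool.Agent.N333.MY.Up.t_UP Pool.Agent.N333.MY.Nb.t_LIFTW)
  have hB : S_NB := Pool.Agent.N333.MY.Nb.t_NB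
  have key : ∀ (X : Type) [Fintype X] (G : SimpleGraph X) (K : ℝ),
      (∃ k T : ℕ, (k : ℝ) ≤ K * √(Fintype.card X : ℝ) ∧
        (T : ℝ) ≤ K * (Real.log (Fintype.card X) + 1) ∧ WinIn G k T) → Meyniel G K := by
    rintro X _ G K ⟨k, T, hk, hT, hW⟩
    exact ⟨le_trans (by exact_mod_cast copNumber_le_of_winIn G k T hW) hk, k, T, hk, hT, hW⟩
  refine ⟨fun c C ρ hc hρ => ?_, fun d C hd => ?_, fun V E _ _ _ s t hc hd => ?_⟩
  · obtain ⟨K, hK⟩ := hM c C ρ hc hρ
    exact ⟨K, fun X _ G h1 h2 => key X G K (hK X G h1 h2)⟩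
  · obtain ⟨K, hK⟩ := Pool.Agent.N333.RM.Fin.t_FIN hM d C hd
    exact ⟨K, fun X _ G h1 h2 h3 => key X G K (hK X G h1 h2 h3)⟩
  · obtain ⟨K, hK⟩ := Pool.Agent.N333.MY.Fin.t_FIN hM hE hB V E s t hc hd
    refine ⟨K, fun η hη => ?_⟩
    obtain ⟨N0, hN0⟩ := hK η hη
    refine ⟨N0, fun N hN => le_trans ?_ (hN0 N hN)⟩
    exact_mod_cast Nat.card_le_card_of_injective
      (fun x : {σ : E → Equiv.Perm (Fin N) // ¬ Meyniel (gr (la s N) (lb t σ)) K} =>
        (⟨x.1, fun h => x.2 (key _ _ K h)⟩ :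
          {σ : E → Equiv.Perm (Fin N) // ¬ ∃ k T : ℕ,
            (k : ℝ) ≤ K * √(Fintype.card (V × Fin N) : ℝ) ∧
            (T : ℝ) ≤ K * (Real.log (Fintype.card (V × Fin N)) + 1) ∧
            WinIn (gr (la s N) (lb t σ)) k T}))
      (fun x y hxy => Subtype.ext (congrArg (fun z => z.1) hxy))

end Pool.Agent.Results.MP_964892_co.MeynielLifts
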