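import Pool.Agent.N330.VT.Low
import Pool.Agent.N330.VT.Comp

set_option autoImplicit false
open N6ef48c04

namespace Pool.Agent.Results.MP_964892_co.PathTransversals

/-!
# The cop number and sets which meet all long paths

The starting files bound the cop number by `O(√τ log τ)` for the vertex cover number `τ`. Here the
set `C` need not be a vertex cover: it is enough that a few cops can quickly catch, in each component
of `G - C`, a robber who stays outside `C`. Examples: all paths of `G - C` have at most `h` vertices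
(`C` is a transversal of the paths with `h + 1` vertices; `h = 1` are the vertex covers), or all
components of `G - C` have small dominating sets (complete graphs, stars, ...), or they have small
diameter and a moderate number of vertices.

Proof idea. A group of `q` cops forces the robber to come back to `C` after at most `3 T + 2` rounds:
far from him it gains one step whenever he stays longer, near to him it catches him. The others play
the entropy game of the starting files (`W149.VD`) on a board whose states are a vertex together with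
a record: at which vertex of `C`, and how many rounds ago, was the last visit to `C`? The ends of the
game are the records. A cop whose record is equal to the record of the robber has caught him at
that moment. There are only `3 (T + 1) |C|` records; new cops join the game only when the robber
is in `C`. On this board a cop cannot wait without changing his state, so the entropy method is redone
without this assumption.
-/

/-- The cops `c` are to move, the robber is at `r`: within `T` rounds they catch him if he stays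
outside `C`. -/
def OutCatch {V : Type*} (G : SimpleGraph V) (C : Finset V) {q : ℕ} : ℕ → (Fin q → V) → V → Prop
  | 0, c, r => ∃ i, c i = r
  | T + 1, c, r =>
      (∃ i, c i = r) ∨
        ∃ c' : Fin q → V, (∀ i, Step G (c i) (c' i)) ∧
          ((∃ i, c' i = r) ∨ ∀ r', Step G r r' → r' ∉ C → OutCatch G C T c' r')

theorem hunt_of {V : Type*} (G : SimpleGraph V) (C : Finset V) {q : ℕ} (T : ℕ) :
    ∀ (c : Fin q → V) (r : V), OutCatch G C T c r → Pool.Agent.N330.VT.Hunt G C T c r := by
  induction T with
  | zero => exact fun c r h => h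
  | succ T ih =>
    rintro c r (h | ⟨c', hc', h | h⟩)
    · exact Or.inl h
    · exact Or.inr ⟨c', hc', Or.inl h⟩
    · exact Or.inr ⟨c', hc', Or.inr fun r' h1 h2 => ih c' r' (h r' h1 h2)⟩

theorem walk_of_con {V : Type*} (G : SimpleGraph V) (C : Finset V) {a b : V} (ha : a ∉ C)
    (h : Pool.Agent.N330.VT.Con G C a b) : ∃ w : G.Walk a b, ∀ x ∈ w.support, x ∉ C := by
  induction h with
  | refl =>
    refine ⟨SimpleGraph.Walk.nil, fun x hx => ?_⟩
    rw [SimpleGraph.Walk.support_nil, List.mem_singleton] at hx
    rw [hx]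
    exact ha
  | tail _ hbc ih =>
    obtain ⟨w, hw⟩ := ih
    refine ⟨w.concat hbc.1, fun x hx => ?_⟩
    rw [SimpleGraph.Walk.support_concat, List.mem_append, List.mem_singleton] at hx
    rcases hx with hx | hx
    · exact hw x hx
    · rw [hx]
      exact hbc.2

/-- Let `G` be a connected graph on `n` vertices and `C` a set of vertices.
(1) If `q` cops, from each common starting vertex `a ∉ C`, can catch within `T` rounds a robber who
starts in the same component of `G - C` and stays outside `C`, then
`c(G) ≤ 237 (T + 1) √((T + 1) |C|) (log ((T + 1) |C|) + 1) + q` and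
`c(G) ≤ 195 √((T + 1) |C|) (log n + 1) + q`.
(2) If all the paths of `G - C` have at most `h` vertices (`h ≥ 1`), then
`c(G) ≤ 237 h √(h |C|) (log (h |C|) + 1) + h` and `c(G) ≤ 195 √(h |C|) (log n + 1) + h`.
(3) If each component of `G - C` is covered by the closed neighbourhoods of `q` vertices (`q ≥ 1`),
then `c(G) ≤ 711 q √(3 q |C|) (log (3 q |C|) + 1) + q` and
`c(G) ≤ 195 √(3 q |C|) (log n + 1) + q`.
(4) If the components of `G - C` have at most `b` vertices and diameter at most `D`, then
`c(G) ≤ 585 √((log (log b + 1) + 1) (D + 1) |C|) (log n + 1) + 433 √b (log b + 1)`.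
(5) Let `b, h ≥ 1`. If all the paths of `G - C` whose vertices have degree less than `b` have at
most `h` vertices, then `c(G) ≤ (n / b) (2 log (log n + 1) + log h) +
195 √(h |C|) (log n + 1) + 195 √n + h + 1`.
(6) Meyniel's bound. In (5), `c(G) ≤ 392 √n + h` if `√n (2 log (log n + 1) + log h) ≤ b` and
`h |C| (log n + 1) ^ 2 ≤ n`. In (4), `c(G) ≤ 1018 √n` if
`(log (log n + 1) + 1) (D + 1) |C| (log n + 1) ^ 2 ≤ n` and `b (log n + 1) ^ 2 ≤ n`. -/
theorem result {V : Type*} [Fintype V] (G : SimpleGraph V) (hG : G.Connected) (C : Finset V) :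
    (∀ q T : ℕ, (∀ (a b : V) (w : G.Walk a b), (∀ x ∈ w.support, x ∉ C) →
        OutCatch G C T (fun _ : Fin q => a) b) →
      (copNumber G : ℝ) ≤ 237 * (T + 1) * √((T + 1) * C.card) *
        (Real.log ((T + 1) * C.card) + 1) + q ∧
      (copNumber G : ℝ) ≤ 195 * √((T + 1) * C.card) * (Real.log (Fintype.card V) + 1) + q) ∧
    (∀ h : ℕ, 1 ≤ h → (∀ (u v : V) (w : G.Walk u v), w.IsPath → (∀ x ∈ w.support, x ∉ C) →
        w.length + 1 ≤ h) →
      (copNumber G : ℝ) ≤ 237 * h * √(h * C.card) * (Real.log (h * C.card) + 1) + h ∧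
      (copNumber G : ℝ) ≤ 195 * √(h * C.card) * (Real.log (Fintype.card V) + 1) + h) ∧
    (∀ q : ℕ, 1 ≤ q → (∀ a, a ∉ C → ∃ W : Fin q → V, ∀ (b : V) (w : G.Walk a b),
        (∀ x ∈ w.support, x ∉ C) → ∃ i, W i = b ∨ G.Adj (W i) b) →
      (copNumber G : ℝ) ≤ 711 * q * √(3 * q * C.card) * (Real.log (3 * q * C.card) + 1) + q ∧
      (copNumber G : ℝ) ≤ 195 * √(3 * q * C.card) * (Real.log (Fintype.card V) + 1) + q) ∧
    (∀ b D : ℕ, (∀ K : (G.induce {v | v ∉ C}).ConnectedComponent, Nat.card K ≤ b ∧
        ∀ x y : K, K.toSimpleGraph.dist x y ≤ D) →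
      (copNumber G : ℝ) ≤ 585 * √((Real.log (Real.log b + 1) + 1) * (D + 1) * C.card) *
        (Real.log (Fintype.card V) + 1) + 433 * √(b : ℝ) * (Real.log b + 1) ∧
      ((Real.log (Real.log (Fintype.card V) + 1) + 1) * (D + 1) * C.card *
          (Real.log (Fintype.card V) + 1) ^ 2 ≤ Fintype.card V →
        b * (Real.log (Fintype.card V) + 1) ^ 2 ≤ Fintype.card V →
        (copNumber G : ℝ) ≤ 1018 * √(Fintype.card V))) ∧
    (∀ h b : ℕ, 1 ≤ h → 1 ≤ b → (∀ (u v : V) (w : G.Walk u v), w.IsPath →
        (∀ x ∈ w.support, x ∉ C ∧ (G.neighborSet x).ncard < b) → w.length + 1 ≤ h) →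
      (copNumber G : ℝ) ≤
        Fintype.card V / b * (2 * Real.log (Real.log (Fintype.card V) + 1) + Real.log h) +
        195 * √(h * C.card) * (Real.log (Fintype.card V) + 1) +
        195 * √(Fintype.card V) + h + 1 ∧
      (√(Fintype.card V) * (2 * Real.log (Real.log (Fintype.card V) + 1) + Real.log h) ≤ b →
        h * C.card * (Real.log (Fintype.card V) + 1) ^ 2 ≤ Fintype.card V →
        (copNumber G : ℝ) ≤ 392 * √(Fintype.card V) + h)) := by
  classical
  have : Nonempty V := hG.nonempty
  have hn1 : (1 : ℝ) ≤ Fintype.card V := by exact_mod_cast Fintype.card_pos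
  have hln : 0 ≤ Real.log (Fintype.card V : ℝ) := Real.log_nonneg hn1
  have hs1 : 1 ≤ √(Fintype.card V : ℝ) := Real.one_le_sqrt.2 hn1
  refine ⟨fun q T hH => ?_, fun h hh hP => ?_, fun q hq hW => ?_, fun b D hK => ?_,
    fun h b hh hb hP => ?_⟩
  · have HH : ∀ a b, a ∉ C → Pool.Agent.N330.VT.Con G C a b → b ∉ C →
        Pool.Agent.N330.VT.Hunt G C T (fun _ : Fin q => a) b := by
      intro a b ha hab _
      obtain ⟨w, hw⟩ := walk_of_con G C ha hab
      exact hunt_of G C T _ _ (hH a b w hw)
    exact ⟨Pool.Agent.N330.VT.bound_one hG HH, Pool.Agent.N330.VT.bound_two hG HH⟩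
  · have h1 : (((h - 1 : ℕ) : ℝ) + 1) = h := by
      have : ((h - 1 + 1 : ℕ) : ℝ) = h := by
        rw [Nat.sub_add_cancel hh]
      push_cast at this
      exact this
    have h2 := Pool.Agent.N330.VT.bound_one hG (Pool.Agent.N330.VT.hh_path hP)
    have h3 := Pool.Agent.N330.VT.bound_two hG (Pool.Agent.N330.VT.hh_path hP)
    rw [h1] at h2 h3
    exact ⟨h2, h3⟩
  · have h1 : (((3 * q - 1 : ℕ) : ℝ) + 1) = 3 * q := by
      have : ((3 * q - 1 + 1 : ℕ) : ℝ) = ((3 * q : ℕ) : ℝ) := by
        rw [Nat.sub_add_cancel (by omega)]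
      push_cast at this
      exact this
    have hW' : ∀ a, a ∉ C → ∃ W : Fin q → V, ∀ b, Pool.Agent.N330.VT.Con G C a b → b ∉ C →
        ∃ i, Step G (W i) b := by
      intro a ha
      obtain ⟨W, hW⟩ := hW a ha
      refine ⟨W, fun b hab _ => ?_⟩
      obtain ⟨w, hw⟩ := walk_of_con G C ha hab
      exact hW b w hw
    have h2 := Pool.Agent.N330.VT.bound_one hG (Pool.Agent.N330.VT.hh_dom hG hW')
    have h3 := Pool.Agent.N330.VT.bound_two hG (Pool.Agent.N330.VT.hh_dom hG hW')
    rw [h1] at h2 h3
    refine ⟨?_, h3⟩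
    have h4 : (237 : ℝ) * (3 * q) = 711 * q := by ring
    rw [h4] at h2
    exact h2
  · have h1 := Pool.Agent.N330.VT.bound_comp hG hK
    refine ⟨h1, fun hC hb => ?_⟩
    set n : ℝ := (Fintype.card V : ℝ) with hn
    set Λ : ℝ := Real.log n + 1 with hΛ
    have hΛ1 : 1 ≤ Λ := by linarith
    have hΛ2 : 1 ≤ Λ ^ 2 := one_le_pow₀ hΛ1
    have hb0 : (0 : ℝ) ≤ b := Nat.cast_nonneg b
    have hbn : (b : ℝ) ≤ n := by nlinarith
    have hlb0 : 0 ≤ Real.log (b : ℝ) := Real.log_natCast_nonneg b
    have hlb : Real.log (b : ℝ) ≤ Real.log n := by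
      rcases Nat.eq_zero_or_pos b with h0 | h0
      · rw [h0, Nat.cast_zero, Real.log_zero]
        exact hln
      · exact Real.log_le_log (by exact_mod_cast h0) hbn
    have hll : Real.log (Real.log (b : ℝ) + 1) ≤ Real.log Λ :=
      Real.log_le_log (by linarith) (by linarith)
    have hll0 : 0 ≤ Real.log (Real.log (b : ℝ) + 1) := Real.log_nonneg (by linarith)
    have h2 : √((Real.log (Real.log b + 1) + 1) * (D + 1) * C.card) * Λ ≤ √n := by
      apply Real.le_sqrt_of_sq_le
      rw [mul_pow, Real.sq_sqrt (by positivity)]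
      refine le_trans ?_ hC
      gcongr
    have h3 : √(b : ℝ) * (Real.log b + 1) ≤ √n := by
      apply Real.le_sqrt_of_sq_le
      rw [mul_pow, Real.sq_sqrt hb0]
      refine le_trans ?_ hb
      have h4 : Real.log (b : ℝ) + 1 ≤ Λ := by linarith
      have h5 : (Real.log (b : ℝ) + 1) ^ 2 ≤ Λ ^ 2 := by gcongr
      exact mul_le_mul_of_nonneg_left h5 hb0
    linarith
  · have h1 := Pool.Agent.N330.VT.low_path hG C h b hh hb hP
    refine ⟨h1, fun hb' hC => ?_⟩
    set n : ℝ := (Fintype.card V : ℝ) with hn
    set Λ : ℝ := Real.log n + 1 with hΛ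
    have hh1 : (1 : ℝ) ≤ h := by exact_mod_cast hh
    have hb1 : (1 : ℝ) ≤ b := by exact_mod_cast hb
    have h2 : √(h * (C.card : ℝ)) * Λ ≤ √n := by
      apply Real.le_sqrt_of_sq_le
      rw [mul_pow, Real.sq_sqrt (by positivity)]
      exact hC
    have h3 : n / b * (2 * Real.log Λ + Real.log h) ≤ √n := by
      rw [div_mul_eq_mul_div, div_le_iff₀ (by linarith)]
      have h4 : n * (2 * Real.log Λ + Real.log h) =
          √n * (√n * (2 * Real.log Λ + Real.log h)) := by
        rw [← mul_assoc, Real.mul_self_sqrt (by linarith)]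
      rw [h4]
      exact mul_le_mul_of_nonneg_left hb' (Real.sqrt_nonneg _)
    linarith

end Pool.Agent.Results.MP_964892_co.PathTransversals
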